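import Pool.Agent.Helper65K9.KT.Sep
import Pool.Agent.Y94.UG.Loops
import Mathlib.NumberTheory.NumberField.InfinitePlace.Basic

set_option autoImplicit false

/-!
Fields with one infinite place, and the loops.
-/

namespace Pool.Agent.Helper65K9.KT

open Polynomial

open Pool.Agent.TH826.MK (Torus symb)

open Pool.Agent.TH826.HD

variable {K : Type*} [Field K] {g : ℕ}

/-- nonzero algebraic integers of a field with one infinite place have absolute value `≥ 1` -/
theorem one_le_norm [NumberField K] (hK : Subsingleton (NumberField.InfinitePlace K))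
    (s : K →+* ℂ) {x : K} (hx : IsIntegral ℤ x) (h0 : x ≠ 0) : 1 ≤ ‖s x‖ := by
  obtain ⟨a, ha⟩ : ∃ a : NumberField.RingOfIntegers K, (a : K) = x := ⟨⟨x, hx⟩, rfl⟩
  have ha0 : a ≠ 0 := by
    rintro rfl
    exact h0 (by rw [← ha]; simp)
  have h1 := NumberField.InfinitePlace.one_le_of_lt_one (w := NumberField.InfinitePlace.mk s) ha0
    (fun z hz => absurd (Subsingleton.elim _ _) hz)
  rw [ha, NumberField.InfinitePlace.apply] at h1
  exact h1

/-- the number `D` -/
theorem exists_D [NumberField K] {s : K →+* ℂ} {F : K[X]} (hF : ∀ i, IsIntegral ℤ (F.coeff i))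
    (hdeg : F.natDegree = g + 1) {b : Fin (g + 1) → K} (hb : ∀ m, IsIntegral ℤ (b m))
    (hinj : Function.Injective b)
    (hK : Subsingleton (NumberField.InfinitePlace K) ∨
      ∃ D : ℝ, 0 < D ∧ (∀ i j, i ≠ j → D ≤ ‖s (b i) - s (b j)‖) ∧
        1 ≤ ‖s F.leadingCoeff‖ * D ^ (g + 1)) :
    ∃ D : ℝ, 0 < D ∧ (∀ i j, i ≠ j → D ≤ ‖s (b i) - s (b j)‖) ∧
        1 ≤ ‖s F.leadingCoeff‖ * D ^ (g + 1) := by
  rcases hK with hK | hK
  · refine ⟨1, one_pos, fun i j hij => ?_, ?_⟩
    · rw [← map_sub]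
      exact one_le_norm hK s ((hb i).sub (hb j)) (sub_ne_zero.2 (hinj.ne hij))
    · rw [one_pow, mul_one]
      refine one_le_norm hK s (hF _) ?_
      rw [Ne, leadingCoeff_eq_zero]
      rintro rfl
      rw [natDegree_zero] at hdeg
      omega
  · exact hK

end Pool.Agent.Helper65K9.KT
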