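import Mathlib

set_option autoImplicit false

/-!
Packing of discs: products of distances to points of the plane with mutual distances at least `1`.
-/

namespace Pool.Agent.Helper65K9.KT

open MeasureTheory Metric

variable {n : ℕ}

/-- at most `(2R+1)²` points with mutual distances at least `1` have distance `< R` from `x` -/
theorem card_le {b : Fin n → ℂ} (hb : ∀ i j, i ≠ j → 1 ≤ ‖b i - b j‖) (x : ℂ) {R : ℝ}
    (hR : 0 ≤ R) (S : Finset (Fin n)) (hS : ∀ j ∈ S, ‖x - b j‖ < R) :
    (S.card : ℝ) ≤ (2 * R + 1) ^ 2 := by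
  have hdisj : (S : Set (Fin n)).PairwiseDisjoint fun j => ball (b j) (1 / 2) := by
    intro i _ j _ hij
    refine ball_disjoint_ball ?_
    rw [dist_eq_norm]
    linarith [hb i j hij]
  have hsub : (⋃ j ∈ S, ball (b j) (1 / 2)) ⊆ ball x (R + 1 / 2) := by
    intro y hy
    simp only [Set.mem_iUnion, mem_ball] at hy ⊢
    obtain ⟨j, hj, hy⟩ := hy
    have h1 := hS j hj
    rw [dist_eq_norm] at hy ⊢
    have h2 : y - x = (y - b j) - (x - b j) := by ring
    have h3 := norm_sub_le (y - b j) (x - b j)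
    rw [← h2] at h3
    linarith
  have h1 := measure_mono (μ := volume) hsub
  rw [measure_biUnion_finset hdisj (fun _ _ => measurableSet_ball)] at h1
  simp only [Complex.volume_ball, Finset.sum_const, nsmul_eq_mul] at h1
  have h2 := ENNReal.toReal_mono (by
    refine ENNReal.mul_ne_top (ENNReal.pow_ne_top ENNReal.ofReal_ne_top) ?_
    exact ENNReal.coe_ne_top) h1
  rw [ENNReal.toReal_mul, ENNReal.toReal_mul, ENNReal.toReal_mul, ENNReal.toReal_pow,
    ENNReal.toReal_pow, ENNReal.toReal_ofReal (by norm_num), ENNReal.toReal_ofReal (by linarith),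
    ENNReal.toReal_natCast, ENNReal.coe_toReal, NNReal.coe_real_pi] at h2
  have hπ := Real.pi_pos
  have h3 : ((S.card : ℝ) * (1 / 2) ^ 2) * Real.pi ≤ (R + 1 / 2) ^ 2 * Real.pi := by
    linarith
  have h4 := le_of_mul_le_mul_right h3 hπ
  nlinarith

theorem card_le_nat {b : Fin n → ℂ} (hb : ∀ i j, i ≠ j → 1 ≤ ‖b i - b j‖) (x : ℂ) {R : ℝ}
    (hR : 0 ≤ R) {N : ℕ} (hN : (2 * R + 1) ^ 2 < N + 1) (S : Finset (Fin n))
    (hS : ∀ j ∈ S, ‖x - b j‖ < R) : S.card ≤ N := by
  have h1 := card_le hb x hR S hS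
  have h2 : (S.card : ℝ) < ((N + 1 : ℕ) : ℝ) := by push_cast; linarith
  have h3 : S.card < N + 1 := by exact_mod_cast h2
  omega

/-- points at distance `< 1 / 2` -/
theorem card_half {b : Fin n → ℂ} (hb : ∀ i j, i ≠ j → 1 ≤ ‖b i - b j‖) (x : ℂ)
    (S : Finset (Fin n)) (hS : ∀ j ∈ S, ‖x - b j‖ < 1 / 2) : S.card ≤ 1 := by
  rw [Finset.card_le_one]
  intro i hi j hj
  by_contra hij
  have h1 := hS i hi
  have h2 := hS j hj
  have h3 := hb i j hij
  have h4 : b i - b j = (x - b j) - (x - b i) := by ring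
  have h5 := norm_sub_le (x - b j) (x - b i)
  rw [← h4] at h5
  linarith

/-- one layer -/
theorem layer {ι : Type*} (T : Finset ι) (r : ι → ℝ) {a c : ℝ} (ha : 0 < a) (hac : a ≤ c)
    {N : ℕ} (hr : ∀ j ∈ T, 0 < r j) (hN : (T.filter fun j => r j < c).card ≤ N) :
    ∑ j ∈ T, Real.log (min (r j) a) + ((T.card : ℝ) - N) * (Real.log c - Real.log a) ≤
      ∑ j ∈ T, Real.log (min (r j) c) := by
  have hlog : 0 ≤ Real.log c - Real.log a := sub_nonneg.2 (Real.log_le_log ha hac)
  have h1 : ∀ j ∈ T, Real.log (min (r j) a) + (if r j < c then 0 else (Real.log c - Real.log a)) ≤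
      Real.log (min (r j) c) := by
    intro j hj
    split_ifs with h
    · rw [add_zero]
      exact Real.log_le_log (lt_min (hr j hj) ha) (min_le_min_left _ hac)
    · push Not at h
      rw [min_eq_right h, min_eq_right (hac.trans h)]
      linarith
  refine le_trans ?_ (Finset.sum_le_sum h1)
  rw [Finset.sum_add_distrib]
  refine add_le_add le_rfl ?_
  rw [Finset.sum_ite, Finset.sum_const_zero, zero_add, Finset.sum_const, nsmul_eq_mul]
  refine mul_le_mul_of_nonneg_right ?_ hlog
  have h2 := Finset.card_filter_add_card_filter_not (s := T) (fun j => r j < c)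
  have h3 : (T.card : ℝ) = ((T.filter fun j => r j < c).card : ℝ) +
      ((T.filter fun j => ¬ r j < c).card : ℝ) := by exact_mod_cast h2.symm
  have h4 : ((T.filter fun j => r j < c).card : ℝ) ≤ N := by exact_mod_cast hN
  linarith

theorem log_half : Real.log (1 / 2) = - Real.log 2 := by
  rw [one_div, Real.log_inv]

theorem log_div' {a c : ℝ} (ha : a ≠ 0) (hc : c ≠ 0) : Real.log (a / c) = Real.log a - Real.log c :=
  Real.log_div ha hc

theorem log_four : Real.log 4 = 2 * Real.log 2 := by
  rw [show (4:ℝ) = 2 ^ 2 by norm_num, Real.log_pow]; push_cast; ring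

theorem log_32 : Real.log 32 = 5 * Real.log 2 := by
  rw [show (32:ℝ) = 2 ^ 5 by norm_num, Real.log_pow]; push_cast; ring

/-- the product of the distances from a point outside of the discs -/
theorem prod_ge (hn : 31 ≤ n) {b : Fin n → ℂ} (hb : ∀ i j, i ≠ j → 1 ≤ ‖b i - b j‖) {x : ℂ}
    (hx : ∀ j, 1 / 32 ≤ ‖x - b j‖) : 5 ≤ ∏ j, ‖x - b j‖ := by
  classical
  have hpos : ∀ j, 0 < ‖x - b j‖ := fun j => lt_of_lt_of_le (by norm_num) (hx j)
  have hcard : (Finset.univ : Finset (Fin n)).card = n := by simp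
  set r : Fin n → ℝ := fun j => ‖x - b j‖ with hr
  have hfil : ∀ (c : ℝ) (j : Fin n), j ∈ (Finset.univ.filter fun j => r j < c) → ‖x - b j‖ < c :=
    fun c j hj => (Finset.mem_filter.1 hj).2
  have s0 : ∑ j, Real.log (min (r j) (1 / 32)) = n * Real.log (1 / 32) := by
    have : ∀ j ∈ (Finset.univ : Finset (Fin n)), Real.log (min (r j) (1 / 32)) =
        Real.log (1 / 32) := fun j _ => by rw [min_eq_right (hx j)]
    rw [Finset.sum_congr rfl this, Finset.sum_const, hcard, nsmul_eq_mul]
  have s1 := layer (N := 1) Finset.univ r (a := 1 / 32) (c := 1 / 2) (by norm_num) (by norm_num)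
    (fun j _ => hpos j) (card_half hb x _ (hfil _))
  have s2 := layer (N := 6) Finset.univ r (a := 1 / 2) (c := 3 / 4) (by norm_num) (by norm_num)
    (fun j _ => hpos j) (card_le_nat hb x (by norm_num) (by norm_num) _ (hfil _))
  have s3 := layer (N := 9) Finset.univ r (a := 3 / 4) (c := 1) (by norm_num) (by norm_num)
    (fun j _ => hpos j) (card_le_nat hb x (by norm_num) (by norm_num) _ (hfil _))
  have s4 := layer (N := 12) Finset.univ r (a := 1) (c := 5 / 4) (by norm_num) (by norm_num)
    (fun j _ => hpos j) (card_le_nat hb x (by norm_num) (by norm_num) _ (hfil _))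
  have s5 := layer (N := 16) Finset.univ r (a := 5 / 4) (c := 3 / 2) (by norm_num) (by norm_num)
    (fun j _ => hpos j) (card_le_nat hb x (by norm_num) (by norm_num) _ (hfil _))
  have s6 := layer (N := 20) Finset.univ r (a := 3 / 2) (c := 7 / 4) (by norm_num) (by norm_num)
    (fun j _ => hpos j) (card_le_nat hb x (by norm_num) (by norm_num) _ (hfil _))
  have s7 := layer (N := 25) Finset.univ r (a := 7 / 4) (c := 2) (by norm_num) (by norm_num)
    (fun j _ => hpos j) (card_le_nat hb x (by norm_num) (by norm_num) _ (hfil _))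
  have s8 : ∑ j, Real.log (min (r j) 2) ≤ ∑ j, Real.log (r j) :=
    Finset.sum_le_sum fun j _ => Real.log_le_log (lt_min (hpos j) two_pos) (min_le_left _ _)
  rw [hcard] at s1 s2 s3 s4 s5 s6 s7
  have e1 : Real.log (1 / 32) = -(5 * Real.log 2) := by rw [one_div, Real.log_inv, log_32]
  have e2 := log_half
  have e3 : Real.log (3 / 4) = Real.log 3 - 2 * Real.log 2 := by
    rw [log_div' (by norm_num) (by norm_num), log_four]
  have e4 : Real.log (5 / 4) = Real.log 5 - 2 * Real.log 2 := by
    rw [log_div' (by norm_num) (by norm_num), log_four]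
  have e5 : Real.log (3 / 2) = Real.log 3 - Real.log 2 := log_div' (by norm_num) (by norm_num)
  have e6 : Real.log (7 / 4) = Real.log 7 - 2 * Real.log 2 := by
    rw [log_div' (by norm_num) (by norm_num), log_four]
  rw [e1] at s0 s1
  rw [e2] at s1 s2
  rw [e3] at s2 s3
  rw [Real.log_one] at s3 s4
  rw [e4] at s4 s5
  rw [e5] at s5 s6
  rw [e6] at s6 s7
  have hl2 : 0 < Real.log 2 := Real.log_pos (by norm_num)
  have hn' : (31 : ℝ) ≤ n := by exact_mod_cast hn
  have hnum : 32 * Real.log 2 ≤ 7 * Real.log 3 + 3 * Real.log 5 + 5 * Real.log 7 := by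
    have h1 : 7 * Real.log 3 + 3 * Real.log 5 + 5 * Real.log 7 =
        Real.log (3 ^ 7 * 5 ^ 3 * 7 ^ 5) := by
      rw [Real.log_mul (by norm_num) (by norm_num), Real.log_mul (by norm_num) (by norm_num),
        Real.log_pow, Real.log_pow, Real.log_pow]
      push_cast; ring
    have h2 : 32 * Real.log 2 = Real.log (2 ^ 32) := by
      rw [Real.log_pow]; push_cast; ring
    rw [h1, h2]
    exact Real.log_le_log (by norm_num) (by norm_num)
  have hfin : Real.log 5 ≤ ∑ j, Real.log (r j) := by
    push_cast at s1 s2 s3 s4 s5 s6 s7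
    nlinarith [mul_le_mul_of_nonneg_right hn' hl2.le]
  rw [← Real.log_prod (fun j _ => (hpos j).ne')] at hfin
  exact (Real.log_le_log_iff (by norm_num) (Finset.prod_pos fun j _ => hpos j)).1 hfin

/-- the product of the distances of one of the points from the others -/
theorem prod_erase_ge (hn : 31 ≤ n) {b : Fin n → ℂ} (hb : ∀ i j, i ≠ j → 1 ≤ ‖b i - b j‖)
    (i : Fin n) : (3 ^ 4 * 5 ^ 4 * 7 ^ 5 : ℝ) * 2 ^ (n - 31) ≤
      2 ^ 16 * ∏ j ∈ Finset.univ.erase i, ‖b i - b j‖ := by
  classical
  set T : Finset (Fin n) := Finset.univ.erase i with hT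
  have hne : ∀ j ∈ T, i ≠ j := fun j hj => (Finset.ne_of_mem_erase hj).symm
  have hpos : ∀ j ∈ T, 0 < ‖b i - b j‖ := fun j hj =>
    lt_of_lt_of_le one_pos (hb i j (hne j hj))
  have hcard : (T.card : ℝ) = n - 1 := by
    rw [hT, Finset.card_erase_of_mem (Finset.mem_univ i), Finset.card_univ, Fintype.card_fin,
      Nat.cast_sub (by omega)]
    simp
  set r : Fin n → ℝ := fun j => ‖b i - b j‖ with hr
  have hfil : ∀ (c : ℝ) (N : ℕ), 0 < c → (2 * c + 1) ^ 2 < N + 1 + 1 →
      (T.filter fun j => r j < c).card ≤ N := by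
    intro c N hc hN
    have h1 := card_le_nat (N := N + 1) hb (b i) hc.le (by push_cast; linarith)
      (insert i (T.filter fun j => r j < c)) (fun j hj => by
        rcases Finset.mem_insert.1 hj with h | h
        · rw [h, sub_self, norm_zero]; exact hc
        · exact (Finset.mem_filter.1 h).2)
    have hni : i ∉ (T.filter fun j => r j < c) := fun h =>
      (hne i (Finset.mem_filter.1 h).1) rfl
    rw [Finset.card_insert_of_notMem hni] at h1
    omega
  have s0 : ∑ j ∈ T, Real.log (min (r j) 1) = 0 := by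
    refine Finset.sum_eq_zero fun j hj => ?_
    rw [min_eq_right (hb i j (hne j hj)), Real.log_one]
  have s4 := layer (N := 11) T r (a := 1) (c := 5 / 4) (by norm_num) (by norm_num)
    hpos (hfil _ _ (by norm_num) (by norm_num))
  have s5 := layer (N := 15) T r (a := 5 / 4) (c := 3 / 2) (by norm_num) (by norm_num)
    hpos (hfil _ _ (by norm_num) (by norm_num))
  have s6 := layer (N := 19) T r (a := 3 / 2) (c := 7 / 4) (by norm_num) (by norm_num)
    hpos (hfil _ _ (by norm_num) (by norm_num))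
  have s7 := layer (N := 24) T r (a := 7 / 4) (c := 2) (by norm_num) (by norm_num)
    hpos (hfil _ _ (by norm_num) (by norm_num))
  have s8 : ∑ j ∈ T, Real.log (min (r j) 2) ≤ ∑ j ∈ T, Real.log (r j) :=
    Finset.sum_le_sum fun j hj => Real.log_le_log (lt_min (hpos j hj) two_pos) (min_le_left _ _)
  rw [hcard] at s4 s5 s6 s7
  have e4 : Real.log (5 / 4) = Real.log 5 - 2 * Real.log 2 := by
    rw [log_div' (by norm_num) (by norm_num), log_four]
  have e5 : Real.log (3 / 2) = Real.log 3 - Real.log 2 := log_div' (by norm_num) (by norm_num)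
  have e6 : Real.log (7 / 4) = Real.log 7 - 2 * Real.log 2 := by
    rw [log_div' (by norm_num) (by norm_num), log_four]
  rw [Real.log_one] at s4
  rw [e4] at s4 s5
  rw [e5] at s5 s6
  rw [e6] at s6 s7
  have hfin : 4 * Real.log 3 + 4 * Real.log 5 + 5 * Real.log 7 + ((n : ℝ) - 31) * Real.log 2 ≤
      16 * Real.log 2 + ∑ j ∈ T, Real.log (r j) := by
    push_cast at s4 s5 s6 s7
    linarith
  have hP : 0 < ∏ j ∈ T, r j := Finset.prod_pos fun j hj => hpos j hj
  rw [← Real.log_prod (fun j hj => (hpos j hj).ne')] at hfin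
  have h1 : 4 * Real.log 3 + 4 * Real.log 5 + 5 * Real.log 7 + ((n : ℝ) - 31) * Real.log 2 =
      Real.log ((3 ^ 4 * 5 ^ 4 * 7 ^ 5 : ℝ) * 2 ^ (n - 31)) := by
    rw [Real.log_mul (by norm_num) (by positivity), Real.log_mul (by norm_num) (by norm_num),
      Real.log_mul (by norm_num) (by norm_num),
      Real.log_pow, Real.log_pow, Real.log_pow, Real.log_pow, Nat.cast_sub hn]
    push_cast; ring
  have h2 : 16 * Real.log 2 + Real.log (∏ j ∈ T, r j) = Real.log (2 ^ 16 * ∏ j ∈ T, r j) := by
    rw [Real.log_mul (by norm_num) hP.ne', Real.log_pow]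
    push_cast; ring
  rw [h1, h2] at hfin
  exact (Real.log_le_log_iff (by positivity) (by positivity)).1 hfin

/-- the criterion -/
theorem crit (hn : 31 ≤ n) {b : Fin n → ℂ} (hb : ∀ i j, i ≠ j → 1 ≤ ‖b i - b j‖)
    (p q : Fin n) (hpq : p ≠ q) :
    0 ≤ Real.log (‖b p - b q‖ - 1 / 32) + Real.log (‖b q - b p‖ - 1 / 32) +
      ∑ j ∈ (Finset.univ.erase p).erase q,
        Real.log (min (‖b p - b j‖ - 1 / 32) (‖b q - b j‖ - 1 / 32)) := by
  classical
  set T : Finset (Fin n) := (Finset.univ.erase p).erase q with hT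
  have hcard : (T.card : ℝ) = n - 2 := by
    rw [hT, Finset.card_erase_of_mem (Finset.mem_erase.2 ⟨hpq.symm, Finset.mem_univ q⟩),
      Finset.card_erase_of_mem (Finset.mem_univ p), Finset.card_univ, Fintype.card_fin,
      Nat.sub_sub, Nat.cast_sub (by omega)]
    push_cast; ring
  have hmemT : ∀ j ∈ T, p ≠ j ∧ q ≠ j := fun j hj =>
    ⟨(Finset.ne_of_mem_erase (Finset.mem_of_mem_erase hj)).symm,
      (Finset.ne_of_mem_erase hj).symm⟩
  set m : Fin n → ℝ := fun j => min (‖b p - b j‖ - 1 / 32) (‖b q - b j‖ - 1 / 32) with hm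
  have hone : ∀ j ∈ T, (31 / 32 : ℝ) ≤ m j := by
    intro j hj
    obtain ⟨h1, h2⟩ := hmemT j hj
    have h3 := hb p j h1
    have h4 := hb q j h2
    exact le_min (by linarith) (by linarith)
  have hfil1 : ∀ a : Fin n, a ∉ T →
      (T.filter fun j => ‖b a - b j‖ < 5 / 4).card ≤ 11 := by
    intro a ha
    have h1 := card_le_nat (N := 12) hb (b a) (R := 5 / 4) (by norm_num) (by norm_num)
      (insert a (T.filter fun j => ‖b a - b j‖ < 5 / 4)) (fun j hj => by
        rcases Finset.mem_insert.1 hj with h | h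
        · rw [h, sub_self, norm_zero]; norm_num
        · exact (Finset.mem_filter.1 h).2)
    rw [Finset.card_insert_of_notMem (fun h => ha (Finset.mem_filter.1 h).1)] at h1
    omega
  have hfil : (T.filter fun j => m j < 39 / 32).card ≤ 22 := by
    have h1 : (T.filter fun j => m j < 39 / 32) ⊆ (T.filter fun j => ‖b p - b j‖ < 5 / 4) ∪
        (T.filter fun j => ‖b q - b j‖ < 5 / 4) := by
      intro j hj
      obtain ⟨h1, h2⟩ := Finset.mem_filter.1 hj
      rcases min_lt_iff.1 h2 with h3 | h3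
      · exact Finset.mem_union_left _ (Finset.mem_filter.2 ⟨h1, by linarith⟩)
      · exact Finset.mem_union_right _ (Finset.mem_filter.2 ⟨h1, by linarith⟩)
    have h2 := Finset.card_le_card h1
    have h3 := Finset.card_union_le (T.filter fun j => ‖b p - b j‖ < 5 / 4)
      (T.filter fun j => ‖b q - b j‖ < 5 / 4)
    have h4 := hfil1 p (fun h => (hmemT p h).1 rfl)
    have h5 := hfil1 q (fun h => (hmemT q h).2 rfl)
    omega
  have s0 : ∑ j ∈ T, Real.log (min (m j) (31 / 32)) = T.card * Real.log (31 / 32) := by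
    have : ∀ j ∈ T, Real.log (min (m j) (31 / 32)) =
        Real.log (31 / 32) := fun j hj => by rw [min_eq_right (hone j hj)]
    rw [Finset.sum_congr rfl this, Finset.sum_const, nsmul_eq_mul]
  have s1 := layer (N := 22) T m (a := 31 / 32) (c := 39 / 32) (by norm_num) (by norm_num)
    (fun j hj => lt_of_lt_of_le (by norm_num) (hone j hj)) hfil
  have s8 : ∑ j ∈ T, Real.log (min (m j) (39 / 32)) ≤ ∑ j ∈ T, Real.log (m j) :=
    Finset.sum_le_sum fun j hj => Real.log_le_log
      (lt_min (lt_of_lt_of_le (by norm_num) (hone j hj)) (by norm_num)) (min_le_left _ _)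
  have h1 := hb p q hpq
  have h2 := hb q p hpq.symm
  have h3 : Real.log (31 / 32) ≤ Real.log (‖b p - b q‖ - 1 / 32) :=
    Real.log_le_log (by norm_num) (by linarith)
  have h4 : Real.log (31 / 32) ≤ Real.log (‖b q - b p‖ - 1 / 32) :=
    Real.log_le_log (by norm_num) (by linarith)
  rw [hcard] at s0 s1
  have hn' : (31 : ℝ) ≤ n := by exact_mod_cast hn
  have hl : 0 < Real.log (39 / 32) := Real.log_pos (by norm_num)
  have hnum : 0 ≤ 24 * Real.log (31 / 32) + 7 * Real.log (39 / 32) := by
    have h1 : 24 * Real.log (31 / 32) + 7 * Real.log (39 / 32) =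
        Real.log ((31 / 32) ^ 24 * (39 / 32) ^ 7) := by
      rw [Real.log_mul (by norm_num) (by norm_num), Real.log_pow, Real.log_pow]
      push_cast; ring
    rw [h1]
    exact Real.log_nonneg (by norm_num)
  push_cast at s1
  nlinarith [mul_le_mul_of_nonneg_right hn' hl.le]

end Pool.Agent.Helper65K9.KT
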