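import Pool.Agent.Helper65K9.KT.Pack
import Pool.Agent.TH690.UF.Sep

set_option autoImplicit false

/-!
Separation without a condition on the leading coefficient, for `g ≥ 30`.
-/

namespace Pool.Agent.Helper65K9.KT

open Polynomial

open Pool.Agent.TH826.UH (Sepd outer exists_gap)

variable {g : ℕ} {F : ℂ[X]} {b : Fin (g + 1) → ℂ}

theorem num_le (m : ℕ) : (256 * ((m : ℝ) + 31)) * 2 ^ 16 ≤ (3 ^ 4 * 5 ^ 4 * 7 ^ 5) * 2 ^ m := by
  induction m with
  | zero => norm_num
  | succ k ih =>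
    have hk : (0 : ℝ) ≤ k := Nat.cast_nonneg k
    rw [show (2 : ℝ) ^ (k + 1) = 2 * 2 ^ k from by ring]
    push_cast
    linarith

/-- outside of the discs the polynomial is large -/
theorem out_norm (hg : 30 ≤ g) (hdeg : F.natDegree = g + 1)
    (hsep : ∀ i j, i ≠ j → 1 ≤ ‖b i - b j‖) (hval : ∀ i, ‖F.eval (b i)‖ ≤ 2)
    (hlead : 1 ≤ ‖F.leadingCoeff‖) {x : ℂ} (hx : ∀ j, 1 / 32 ≤ ‖x - b j‖) :
    2 < ‖F.eval x‖ := by
  have hb : Function.Injective b := by
    intro i j hij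
    by_contra hne
    have h1 := hsep i j hne
    rw [hij, sub_self, norm_zero] at h1
    linarith
  have hxb : ∀ i, x ≠ b i := by
    intro i h1
    have h2 := hx i
    rw [h1, sub_self, norm_zero] at h2
    linarith
  rw [Pool.Agent.TH690.UF.eval_eq hdeg hb hxb, norm_mul, norm_prod]
  set S : ℂ := ∑ i, (∏ j ∈ Finset.univ.erase i, (b i - b j)⁻¹) * (x - b i)⁻¹ * F.eval (b i)
    with hS
  have hn : 31 ≤ g + 1 := by omega
  obtain ⟨C, hC⟩ : ∃ C : ℝ, C = 3 ^ 4 * 5 ^ 4 * 7 ^ 5 := ⟨_, rfl⟩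
  have hC0 : 0 < C := by rw [hC]; positivity
  have h2m : (0 : ℝ) < 2 ^ (g + 1 - 31) := by positivity
  have hSn : ‖S‖ ≤ 1 / 4 := by
    have h1 : ∀ i ∈ Finset.univ, ‖(∏ j ∈ Finset.univ.erase i, (b i - b j)⁻¹) * (x - b i)⁻¹ *
        F.eval (b i)‖ ≤ 2 ^ 16 / (C * 2 ^ (g + 1 - 31)) * 64 := by
      intro i _
      rw [norm_mul, norm_mul, norm_prod, norm_inv]
      have hP : 0 < ∏ j ∈ Finset.univ.erase i, ‖b i - b j‖ :=
        Finset.prod_pos fun j hj => lt_of_lt_of_le one_pos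
          (hsep i j (Finset.ne_of_mem_erase hj).symm)
      have h2 : ∏ j ∈ Finset.univ.erase i, ‖(b i - b j)⁻¹‖ ≤
          2 ^ 16 / (C * 2 ^ (g + 1 - 31)) := by
        have h3 : ∏ j ∈ Finset.univ.erase i, ‖(b i - b j)⁻¹‖ =
            (∏ j ∈ Finset.univ.erase i, ‖b i - b j‖)⁻¹ := by
          rw [← Finset.prod_inv_distrib]
          exact Finset.prod_congr rfl fun j _ => norm_inv _
        rw [h3, inv_eq_one_div, div_le_div_iff₀ hP (by positivity), one_mul, hC]
        exact prod_erase_ge hn hsep i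
      have h3 : ‖x - b i‖⁻¹ ≤ 32 := by
        have h4 := inv_anti₀ (by norm_num : (0 : ℝ) < 1 / 32) (hx i)
        norm_num at h4 ⊢
        exact h4
      calc (∏ j ∈ Finset.univ.erase i, ‖(b i - b j)⁻¹‖) * ‖x - b i‖⁻¹ * ‖F.eval (b i)‖
          ≤ 2 ^ 16 / (C * 2 ^ (g + 1 - 31)) * 32 * 2 := by
            refine mul_le_mul (mul_le_mul h2 h3 (by positivity) (by positivity)) (hval i)
              (norm_nonneg _) (by positivity)
        _ = 2 ^ 16 / (C * 2 ^ (g + 1 - 31)) * 64 := by ring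
    refine (norm_sum_le _ _).trans ((Finset.sum_le_sum h1).trans ?_)
    rw [Finset.sum_const, Finset.card_univ, Fintype.card_fin, nsmul_eq_mul]
    have h5 := num_le (g + 1 - 31)
    have h6 : ((g + 1 - 31 : ℕ) : ℝ) + 31 = ((g + 1 : ℕ) : ℝ) := by
      rw [Nat.cast_sub hn]; push_cast; ring
    rw [h6, ← hC] at h5
    rw [div_mul_eq_mul_div, mul_div_assoc', div_le_iff₀ (by positivity)]
    linarith
  have hP := prod_ge hn hsep hx
  have h2 : ‖F.leadingCoeff‖ - ‖S‖ ≤ ‖F.leadingCoeff + S‖ := by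
    have := norm_sub_norm_le F.leadingCoeff (-S)
    rw [norm_neg, sub_neg_eq_add] at this
    exact this
  have h3 : 3 / 4 ≤ ‖F.leadingCoeff + S‖ := by linarith
  calc (2 : ℝ) < 5 * (3 / 4) := by norm_num
    _ ≤ (∏ i, ‖x - b i‖) * ‖F.leadingCoeff + S‖ :=
        mul_le_mul hP h3 (by norm_num) (by linarith)

/-- The separation criterion: the scale invariant form. -/
theorem sepd (hg : 30 ≤ g) (hdeg : F.natDegree = g + 1) {D : ℝ} (hD0 : 0 < D)
    (hsep : ∀ i j, i ≠ j → D ≤ ‖b i - b j‖) (hval2 : ∀ i, ‖F.eval (b i)‖ ≤ 2)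
    (h : 1 ≤ ‖F.leadingCoeff‖ * D ^ (g + 1)) :
    ∃ η, Sepd F b (D / 32) η := by
  have hF0 : F ≠ 0 := by
    intro h
    rw [h, natDegree_zero] at hdeg
    omega
  have hdeg0 : 0 < F.degree := by
    rw [degree_eq_natDegree hF0, hdeg]
    exact_mod_cast Nat.succ_pos g
  have hDc : (D : ℂ) ≠ 0 := by exact_mod_cast hD0.ne'
  have hDn : ‖(D : ℂ)‖ = D := by rw [Complex.norm_real, Real.norm_eq_abs, abs_of_pos hD0]
  set G : ℂ[X] := F.comp (C (D : ℂ) * X) with hG
  have hq : (C (D : ℂ) * X : ℂ[X]).natDegree = 1 := by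
    rw [natDegree_C_mul hDc, natDegree_X]
  have hGdeg : G.natDegree = g + 1 := by
    rw [hG, natDegree_comp, hq, mul_one, hdeg]
  have hGlead : G.leadingCoeff = F.leadingCoeff * (D : ℂ) ^ (g + 1) := by
    rw [hG, leadingCoeff_comp (by rw [hq]; exact one_ne_zero), leadingCoeff_mul, leadingCoeff_C,
      leadingCoeff_X, mul_one, hdeg]
  have hGev : ∀ y, G.eval y = F.eval ((D : ℂ) * y) := by
    intro y
    rw [hG, eval_comp, eval_mul, eval_C, eval_X]
  set b' : Fin (g + 1) → ℂ := fun i => b i / D with hb'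
  have hsub : ∀ x y : ℂ, ‖x / D - y / D‖ = ‖x - y‖ / D := by
    intro x y
    rw [← sub_div, norm_div, hDn]
  have hout : ∀ x ∈ outer b (D / 32), 2 < ‖F.eval x‖ := by
    intro x hx
    have h1 := out_norm (F := G) (b := b') hg hGdeg (fun i j hij => by
      rw [hb', hsub, le_div_iff₀ hD0, one_mul]; exact hsep i j hij) (fun i => by
        rw [hGev, hb', mul_div_cancel₀ _ hDc]; exact hval2 i) (by
        rw [hGlead, norm_mul, norm_pow, hDn]; exact h) (x := x / D) (fun j => by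
        rw [hb', hsub, le_div_iff₀ hD0]
        have h2 := hx j
        linarith)
    rw [hGev, mul_div_cancel₀ _ hDc] at h1
    exact h1
  obtain ⟨η, hη, h2⟩ := exists_gap hdeg0 hout
  exact ⟨η, hdeg, Nat.succ_pos g, by linarith, fun i j hij => by
    have := hsep i j hij
    linarith, hval2, hη, h2⟩

/-- The criterion for the regulators: the scale invariant form. -/
theorem crit_scaled (hg : 30 ≤ g) {D : ℝ} (hD0 : 0 < D)
    (hsep : ∀ i j, i ≠ j → D ≤ ‖b i - b j‖) {lam : ℝ} (hlam : 0 < lam)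
    (h : 1 ≤ lam * D ^ (g + 1)) (p q : Fin (g + 1)) (hpq : p ≠ q) :
    0 ≤ Real.log lam + Real.log (‖b p - b q‖ - D / 32) + Real.log (‖b q - b p‖ - D / 32) +
      ∑ j ∈ (Finset.univ.erase p).erase q,
        Real.log (min (‖b p - b j‖ - D / 32) (‖b q - b j‖ - D / 32)) := by
  have hDc : (D : ℂ) ≠ 0 := by exact_mod_cast hD0.ne'
  have hDn : ‖(D : ℂ)‖ = D := by rw [Complex.norm_real, Real.norm_eq_abs, abs_of_pos hD0]
  set b' : Fin (g + 1) → ℂ := fun i => b i / D with hb'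
  have hsub : ∀ i j, ‖b' i - b' j‖ = ‖b i - b j‖ / D := by
    intro i j
    rw [hb']
    simp only
    rw [← sub_div, norm_div, hDn]
  have hone : ∀ i j, i ≠ j → 1 ≤ ‖b' i - b' j‖ := fun i j hij => by
    rw [hsub, le_div_iff₀ hD0, one_mul]; exact hsep i j hij
  have h1 := crit (by omega : 31 ≤ g + 1) hone p q hpq
  have hd : ∀ i j, ‖b i - b j‖ - D / 32 = D * (‖b' i - b' j‖ - 1 / 32) := by
    intro i j
    rw [hsub]
    field_simp
  have hpos : ∀ i j, i ≠ j → 0 < ‖b' i - b' j‖ - 1 / 32 := fun i j hij => by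
    have := hone i j hij
    linarith
  have hlog : ∀ i j, i ≠ j → Real.log (‖b i - b j‖ - D / 32) =
      Real.log D + Real.log (‖b' i - b' j‖ - 1 / 32) := fun i j hij => by
    rw [hd, Real.log_mul hD0.ne' (hpos i j hij).ne']
  have hsum : ∑ j ∈ (Finset.univ.erase p).erase q,
        Real.log (min (‖b p - b j‖ - D / 32) (‖b q - b j‖ - D / 32)) =
      ((g : ℝ) - 1) * Real.log D + ∑ j ∈ (Finset.univ.erase p).erase q,
        Real.log (min (‖b' p - b' j‖ - 1 / 32) (‖b' q - b' j‖ - 1 / 32)) := by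
    have h2 : ∀ j ∈ (Finset.univ.erase p).erase q,
        Real.log (min (‖b p - b j‖ - D / 32) (‖b q - b j‖ - D / 32)) =
        Real.log D + Real.log (min (‖b' p - b' j‖ - 1 / 32) (‖b' q - b' j‖ - 1 / 32)) := by
      intro j hj
      have hjq : q ≠ j := (Finset.ne_of_mem_erase hj).symm
      have hjp : p ≠ j := (Finset.ne_of_mem_erase (Finset.mem_of_mem_erase hj)).symm
      rw [hd, hd, ← mul_min_of_nonneg _ _ hD0.le, Real.log_mul hD0.ne'
        (lt_min (hpos p j hjp) (hpos q j hjq)).ne']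
    rw [Finset.sum_congr rfl h2, Finset.sum_add_distrib, Finset.sum_const, nsmul_eq_mul]
    congr 2
    rw [Finset.card_erase_of_mem (Finset.mem_erase.2 ⟨hpq.symm, Finset.mem_univ q⟩),
      Finset.card_erase_of_mem (Finset.mem_univ p), Finset.card_univ, Fintype.card_fin,
      Nat.sub_sub, Nat.cast_sub (by omega)]
    push_cast; ring
  rw [hlog p q hpq, hlog q p hpq.symm, hsum]
  have h3 : 0 ≤ Real.log lam + ((g : ℝ) + 1) * Real.log D := by
    have h4 := Real.log_nonneg h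
    rw [Real.log_mul hlam.ne' (pow_pos hD0 _).ne', Real.log_pow] at h4
    push_cast at h4
    exact h4
  linarith

end Pool.Agent.Helper65K9.KT
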